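import Pool.Agent.Work.MP_db9399_ow.Interface

/-!
# MP_db9399, OWN2: OWN with fine bounds for the multiplicities of the colours (helper72)

`OWN` bounds the number of the vertices of colour `b` in a set of size at most `d` by `x ^ C'` only,
where `x ^ C` is at least the logarithm of the sizes of the supports. For the pieces we need
polylogarithmic bounds (`cap`), for given sets `Z y`. They cannot be events of the big local lemma.
Instead the vertices which violate them are few in all tests (field `ovl` of a batch) and get new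
colours at the end.
-/

set_option autoImplicit false

namespace Pool.Agent.Work.MP_db9399_owc

open Finset Classical
open Pool.Agent.Work.MP_db9399_all (nb mis pr DepOnI)
open Pool.Agent.Work.MP_db9399_en (ex)
open Pool.Agent.Work.MP_db9399_ow

universe u

section Defs
variable {V : Type u} [Fintype V]

/-- sets for the fine bounds -/
structure Cap {Y : Type u} [Fintype Y] (d : ℕ) (Z : Y → Finset V) : Prop where
  card : ∀ y, (Z y).card ≤ d ^ 2
  mul : ∀ v, (univ.filter (fun y => v ∈ Z y)).card ≤ d ^ 3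

/-- labels smaller than `N1 * t`: the early offers -/
noncomputable def ear {P M : ℕ} (U : Finset V) (N1 t : ℕ) (ω : Fin P × V → Fin M) (b : Fin P) :
    Finset V := U.filter (fun v => (ω (b, v) : ℕ) < N1 * t)

/-- the bad vertices of the colour `b`: late local minima, and early ones in a set `Z y` with more
than `k y` early offers -/
noncomputable def bad {P M : ℕ} {Y : Type u} (G : SimpleGraph V) (U : Finset V) (T N1 t : ℕ)
    (Z : Y → Finset V) (k : Y → ℝ) (ω : Fin P × V → Fin M) (b : Fin P) : Finset V :=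
  (loc G U T ω b).filter (fun v => v ∉ ear U N1 t ω b ∨
    ∃ y, v ∈ Z y ∧ k y < ((ear U N1 t ω b ∩ Z y).card : ℝ))

end Defs

/-- OVL (block, like DEV): the bad vertices are few in every test. `p0` bounds the probability that
`v` is bad for `b`. -/
def Stmt_OVL : Prop :=
  ∀ {V : Type u} [Fintype V] (P D N1 t : ℕ) (G : SimpleGraph V) (U : Finset V) {Y : Type u}
    [Fintype Y] (Z : Y → Finset V) (k : Y → ℝ)
    (B : Finset (Fin P)) (F : Fin P → V → ℝ) (K ξ Λ Λ' ε : ℝ), 1 ≤ N1 → N1 < D → 1 ≤ t →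
    N1 * t ≤ N1 ^ 2 → 0 < K → 0 ≤ Λ → 0 ≤ Λ' →
    0 < ε → ε ≤ 1 → (∀ b v, 0 ≤ F b v) → (∀ b v, F b v ≤ K) → (∀ b, ∑ v, F b v ≤ 1) →
    (∀ v ∈ U, D ≤ 4 * (nb G v ∩ U).card) →
    (∀ y, 2 * ((t : ℝ) / D) * ((Z y ∩ U).card : ℝ) ≤ k y) → (∀ y, 8 * Λ' ≤ k y) →
    2 * (N1 : ℝ) / D ≤ ξ → 8 * K * Λ ≤ ξ → 64 * ξ * Λ ≤ ε →
    (∀ v, B.card * (Real.exp (-((t : ℝ) / 4)) +
      (univ.filter (fun y => v ∈ Z y)).card * Real.exp (-Λ')) ≤ ε / 8) →
    pr (fun ω : Fin P × V → Fin (D * N1) => ε ≤ ∑ b ∈ B, ∑ v ∈ bad G U (N1 ^ 2) N1 t Z k ω b,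
      F b v) ≤ (B.card + 2) * Real.exp (-Λ)

/-- **OWN2**: `Stmt_OWN` with the additional sets `Z y`. -/
def Stmt_OWN2 : Prop :=
  ∀ (C K1 K : ℕ), ∃ (C' N0 N x0 : ℕ),
    ∀ {V : Type u} [Fintype V] (G : SimpleGraph V) (d x P : ℕ) (J R Y : Type u) [Fintype J]
      [Fintype R] [Fintype Y] (S : J → Finset V) (g : J → Fin P → V → ℝ) (e : J → ℝ)
      (Q : R → Finset (Fin P × V)) (Z : Y → Finset V) (Fb : V → Finset (Fin P)), x0 ≤ x →
      Real.log d ≤ x →
      x ^ N ≤ d → P ≤ 2 * d → (d : ℝ) - d / (x : ℝ) ^ (C + 2 * K1 + 8) ≤ P →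
      (∀ v, |((nb G v).card : ℝ) - d| ≤ d / (x : ℝ) ^ N0) →
      (∀ v, (d : ℝ) ^ 2 / (x : ℝ) ^ K1 ≤ ((mis G (nb G v)).card : ℝ)) →
      Sig ((x : ℝ) ^ K / d) (Real.exp ((x : ℝ) ^ C)) S g (fun j => e j / d) →
      Upt (d * (x : ℝ) ^ K) (Real.exp ((x : ℝ) ^ C)) Q → Cap d Z →
      (∀ v, ((Fb v).card : ℝ) ≤ d / (x : ℝ) ^ (C + 2 * K1 + 8)) →
      ∃ c : V → Fin P, (∀ v w, G.Adj v w → c v ≠ c w) ∧ (∀ v, c v ∉ Fb v) ∧
        (∀ j, ∑ b, |∑ v ∈ univ.filter (fun v => c v = b), g j b v| ≤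
          1 / (d : ℝ) * ∑ b, (|∑ v, g j b v| + ∑ v ∈ univ.filter (fun v => b ∈ Fb v), |g j b v|) +
            130 * Real.sqrt (e j) + 1 / x) ∧
        (∀ j, ∑ v, |g j (c v) v| ≤ 1 / (d : ℝ) * ∑ b, ∑ v, |g j b v| + 1 / x) ∧
        (∀ q, (((Q q).filter (fun y => c y.2 = y.1)).card : ℝ) ≤ (x : ℝ) ^ C') ∧
        ∀ y b, (((Z y).filter (fun v => c v = b)).card : ℝ) ≤
          Real.log d ^ 4 * (1 + ((Z y).card : ℝ) / d)

end Pool.Agent.Work.MP_db9399_owc
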