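import Pool.Agent.Work.MP_db9399_owc.Interface

/-!
# MP_db9399, OWN2: the blocks (keeper helper89)

`OVL` (Interface.lean) `→ BATCH2 → ITER2`, `SUBL2`, `SSUB`, and `OWN2` from `ITER2`, `SUBL2`,
`SSUB`, `ow.Stmt_LSTL`. Table `owc_blocks`.
-/

set_option autoImplicit false

namespace Pool.Agent.Work.MP_db9399_owc

open Finset Classical
open Pool.Agent.Work.MP_db9399_all (nb mis pr DepOnI)
open Pool.Agent.Work.MP_db9399_en (ex)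
open Pool.Agent.Work.MP_db9399_ow

universe u

/-- the bad sets `Bd b ⊆ A b` of a batch: few in every test; the other vertices of the classes
satisfy the fine bounds -/
structure Bdx {V τ Y : Type u} [Fintype V] [Fintype τ] [Fintype Y] {P : ℕ} (Bt : Finset (Fin P))
    (F : τ → Fin P → V → ℝ) (Z : Y → Finset V) (k : Y → ℝ) (ε : ℝ) (A Bd : Fin P → Finset V) :
    Prop where
  sub : ∀ b, Bd b ⊆ A b
  few : ∀ j, ∑ b ∈ Bt, ∑ v ∈ Bd b, F j b v ≤ ε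
  cap : ∀ y, ∀ b ∈ Bt, (((A b \ Bd b) ∩ Z y).card : ℝ) ≤ k y

/-- BATCH2 (block, from SYM, OFFX, DEV, SGN, MLT, TWO, PNB and OVL): copy of
`ow_helper72/BATCH.lean` with one more family of events, for every test `j : τ`:
`1 / x ^ F ≤ ∑ b ∈ Bt, ∑ v ∈ bad G U T (x ^ A) t Z k ω b, Ft j b v` (`Stmt_OVL` with
`Λ' = 12 * log d`). Its scope is `Sc P G (Sτ j ∪ all Z y which meet Sτ j)`: at most
`|Sτ j| (1 + d ^ 5)` vertices, every `v` in at most `w (1 + d ^ 5)` of them.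
`Bd b = bad ... ω b`; `cap`: if `v ∈ A b \ Bd b` and `v ∈ Z y` then
`(A b \ Bd b) ∩ Z y ⊆ ear ∩ Z y` has at most `k y` elements. -/
def Stmt_BATCH2 : Prop :=
  ∀ (A B C K F m : ℕ), 2 ≤ A → A + B + K + 1 ≤ m → ∃ (N x0 : ℕ),
    ∀ {V : Type u} [Fintype V] (G : SimpleGraph V) (d x P D t : ℕ) (U : Finset V)
      (Bt : Finset (Fin P)) (a : ℝ) (τ J R Y : Type u) [Fintype τ] [Fintype J] [Fintype R]
      [Fintype Y] (Sτ : τ → Finset V) (Ft : τ → Fin P → V → ℝ) (SJ : J → Finset V)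
      (g : J → Fin P → V → ℝ) (e : J → ℝ) (Q : R → Finset (Fin P × V)) (Z : Y → Finset V)
      (k : Y → ℝ), x0 ≤ x →
      Real.log d ≤ x → x ^ N ≤ d → P ≤ 2 * d → D ≤ 2 * d → d ≤ D * x ^ B →
      Bt.card * x ^ m ≤ d → d ≤ 2 * (Bt.card * x ^ m) → 1 / (x : ℝ) ^ K ≤ a → a ≤ 1 →
      (∀ v, (nb G v).card ≤ 2 * d) → (∀ v, (nb G v ∩ U).card + 1 ≤ D) →
      (∀ v ∈ U, D ≤ 4 * (nb G v ∩ U).card) →
      Tst ((x : ℝ) ^ K / d) (Real.exp ((x : ℝ) ^ C)) Sτ Ft →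
      Sig ((x : ℝ) ^ K / d) (Real.exp ((x : ℝ) ^ C)) SJ g (fun j => e j / d) →
      Upt (d * (x : ℝ) ^ K) (Real.exp ((x : ℝ) ^ C)) Q →
      Cap d Z → 100 * Real.log d ≤ t → (t : ℝ) ≤ 200 * x →
      (∀ y, 2 * ((t : ℝ) / D) * ((Z y ∩ U).card : ℝ) ≤ k y) → (∀ y, 100 * Real.log d ≤ k y) →
      ∃ A' O Bd : Fin P → Finset V,
        Bch G U Bt (Pv G U (D * x ^ A) ((x ^ A) ^ 2)) Ft g Q
          (fun j => Bt.card * Real.sqrt (2100 * (e j / d) / D) + 1 / (x : ℝ) ^ F) D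
          (1 / (x : ℝ) ^ F) (2 * (Bt.card * (x : ℝ) ^ A / D) ^ 2)
          ((x : ℝ) ^ (A + B + C + K + 5)) a A' O ∧
        Bdx Bt Ft Z k (1 / (x : ℝ) ^ F) A' Bd

/-- the test of the set `Z y` -/
noncomputable def Zt {V Y : Type u} (d x K : ℕ) (Z : Y → Finset V) (y : Y) (v : V) : ℝ :=
  if v ∈ Z y then 1 / max ((Z y).card : ℝ) ((d : ℝ) / (x : ℝ) ^ K) else 0

/-- ITER2 (block, from BATCH2, STPI, STPO, STPC, PNB): all batches; the tests `Zt` are among the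
tests `g` (`jy`). -/
def Stmt_ITER2 : Prop :=
  ∀ (B C K K1 E : ℕ), 2 * K1 + 4 ≤ B → ∃ (C' N0 N x0 : ℕ),
    ∀ {V : Type u} [Fintype V] (G : SimpleGraph V) (d x P : ℕ) (J R Y : Type u) [Fintype J]
      [Fintype R] [Fintype Y] (S : J → Finset V) (g : J → Fin P → V → ℝ) (e : J → ℝ)
      (Q : R → Finset (Fin P × V)) (Z : Y → Finset V) (jy : Y → J), x0 ≤ x → Real.log d ≤ x →
      x ^ N ≤ d → P ≤ 2 * d → (d : ℝ) - d / (x : ℝ) ^ B ≤ P →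
      (∀ v, |((nb G v).card : ℝ) - d| ≤ d / (x : ℝ) ^ N0) →
      (∀ v, (d : ℝ) ^ 2 / (x : ℝ) ^ K1 ≤ ((mis G (nb G v)).card : ℝ)) →
      Sig ((x : ℝ) ^ K / d) (Real.exp ((x : ℝ) ^ C)) S g (fun j => e j / d) →
      Upt (d * (x : ℝ) ^ K) (Real.exp ((x : ℝ) ^ C)) Q → Cap d Z →
      (∀ y b v, g (jy y) b v = Zt d x K Z y v) →
      ∃ (U : Finset V) (c : V → Fin P) (Bd : Finset V),
        (∀ v w, v ∉ U → w ∉ U → G.Adj v w → c v ≠ c w) ∧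
        (∀ v, ((nb G v ∩ U).card : ℝ) ≤ 4 * d / (x : ℝ) ^ B) ∧
        (∀ v, (d : ℝ) / (x : ℝ) ^ (2 * K1 + 1) ≤
          ((univ.filter (fun b => ∀ w ∈ nb G v, w ∉ U → c w ≠ b)).card : ℝ)) ∧
        (∀ j b, ∑ v ∈ U, |g j b v| ≤ 4 / (x : ℝ) ^ B) ∧
        (∀ j, ∑ b, |∑ v ∈ univ.filter (fun v => v ∉ U ∧ c v = b), g j b v| ≤
          1 / (d : ℝ) * ∑ b, |∑ v, g j b v| + 130 * Real.sqrt (e j) + 1 / (x : ℝ) ^ E) ∧
        (∀ j, ∑ v ∈ univ.filter (fun v => v ∉ U), |g j (c v) v| ≤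
          1 / (d : ℝ) * ∑ b, ∑ v, |g j b v| + 1 / (x : ℝ) ^ E) ∧
        (∀ q, (((Q q).filter (fun y => y.2 ∉ U ∧ c y.2 = y.1)).card : ℝ) ≤ (x : ℝ) ^ C') ∧
        (∀ v ∈ Bd, v ∉ U) ∧
        (∀ v, ((nb G v ∩ Bd).card : ℝ) ≤ d / (x : ℝ) ^ E) ∧
        (∀ j b, ∑ v ∈ Bd, |g j b v| ≤ 1 / (x : ℝ) ^ E) ∧
        (∀ j, ∑ v ∈ Bd, |g j (c v) v| ≤ 1 / (x : ℝ) ^ E) ∧
        ∀ y b, (((Z y).filter (fun v => v ∉ U ∧ v ∉ Bd ∧ c v = b)).card : ℝ) ≤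
          200000 * (Real.log d + 1) * (1 + ((Z y).card : ℝ) / d)

/-- SUBL2 (block): `ow.Stmt_SUBL` (file `ow_helper12/SUBL.lean`) with a better constant for the
neighbours (`64 * ... ≤ x ^ (C + 3)`, the mean is at most `64 / x ^ 3`) and the sets `Z y`
(mean at most `64 / x ^ 3 * (1 + |Z y| / d)`; every coordinate is in at most `2 d * d ^ 3` of the
events `(y, b)`, their scopes have at most `d ^ 2 * l` coordinates). -/
def Stmt_SUBL2 : Prop :=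
  ∀ (C K K1 : ℕ), ∃ (C' N x0 : ℕ),
    ∀ {V : Type u} [Fintype V] (G : SimpleGraph V) (d x P : ℕ) (J R Y : Type u) [Fintype J]
      [Fintype R] [Fintype Y] (S : J → Finset V) (g : J → Fin P → V → ℝ)
      (Q : R → Finset (Fin P × V)) (Z : Y → Finset V)
      (U : Finset V) (L : V → Finset (Fin P)), x0 ≤ x → Real.log d ≤ x → x ^ N ≤ d →
      P ≤ 2 * d → 0 < P → (∀ v, (nb G v).card ≤ 2 * d) →
      (∀ v, ((nb G v ∩ U).card : ℝ) ≤ d / (x : ℝ) ^ (C + 2 * K1 + 7)) →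
      (∀ v ∈ U, (d : ℝ) / (2 * (x : ℝ) ^ (2 * K1 + 1)) ≤ ((L v).card : ℝ)) →
      (∀ j b v, v ∉ S j → g j b v = 0) → (∀ j b v, |g j b v| ≤ (x : ℝ) ^ K / d) →
      (∀ j, ((S j).card : ℝ) ≤ Real.exp ((x : ℝ) ^ C)) →
      (∀ v, ((univ.filter (fun j => v ∈ S j)).card : ℝ) ≤ Real.exp ((x : ℝ) ^ C)) →
      (∀ j b, ∑ v ∈ U, |g j b v| ≤ 1 / (x : ℝ) ^ (C + 2 * K1 + 7)) →
      Upt (d * (x : ℝ) ^ K) (Real.exp ((x : ℝ) ^ C)) Q → Cap d Z →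
      (∀ y, ((Z y ∩ U).card : ℝ) ≤ (d + (Z y).card) / (x : ℝ) ^ (C + 2 * K1 + 7)) →
      ∃ s : V → Fin (32 * x ^ (C + 3)) → Fin P, (∀ v ∈ U, ∀ i, s v i ∈ L v) ∧
        (∀ v ∈ U, ∀ b, 64 * (((nb G v ∩ U) ×ˢ (univ : Finset (Fin (32 * x ^ (C + 3))))).filter
          (fun y => s y.1 y.2 = b)).card ≤ x ^ (C + 3)) ∧
        (∀ j, ∑ v ∈ U, ∑ i, |g j (s v i) v| ≤ 1 / (4 * x)) ∧
        (∀ q, (((U ×ˢ (univ : Finset (Fin (32 * x ^ (C + 3))))).filter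
          (fun y => (s y.1 y.2, y.1) ∈ Q q)).card : ℝ) ≤ (x : ℝ) ^ C') ∧
        ∀ y b, ((((Z y ∩ U) ×ˢ (univ : Finset (Fin (32 * x ^ (C + 3))))).filter
          (fun p => s p.1 p.2 = b)).card : ℝ) ≤ (x : ℝ) ^ (C + 3) * (1 + ((Z y).card : ℝ) / d)

/-- SSUB (block, from SYM, `chern_up`): every vertex chooses `32 m` of its `l` candidates at random,
`m` about `1000 log d`. Coordinates `(v, i)`, `M = l`; events `(v, b)`, `v ∈ U` (mean at most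
`m / 64`), and `(y, b)` (mean at most `32 m (1 + |Z y| / d)`); all sizes are powers of `d`. -/
def Stmt_SSUB : Prop :=
  ∃ d0 : ℕ, ∀ {V Y : Type u} [Fintype V] [Fintype Y] (G : SimpleGraph V) (d P l m : ℕ)
    (Z : Y → Finset V) (U : Finset V) (s : V → Fin l → Fin P), d0 ≤ d → 0 < l → l ≤ d →
    P ≤ 2 * d → (∀ v, (nb G v).card ≤ 2 * d) → Cap d Z → 1000 * Real.log d ≤ m → m ≤ d →
    (∀ v ∈ U, ∀ b, 2048 * (((nb G v ∩ U) ×ˢ (univ : Finset (Fin l))).filter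
      (fun y => s y.1 y.2 = b)).card ≤ l) →
    (∀ y b, ((((Z y ∩ U) ×ˢ (univ : Finset (Fin l))).filter (fun p => s p.1 p.2 = b)).card : ℝ) ≤
      l * (1 + ((Z y).card : ℝ) / d)) →
    ∃ h : V → Fin (32 * m) → Fin l,
      (∀ v ∈ U, ∀ b, (((nb G v ∩ U) ×ˢ (univ : Finset (Fin (32 * m)))).filter
        (fun y => s y.1 (h y.1 y.2) = b)).card ≤ m) ∧
      ∀ y b, ((((Z y ∩ U) ×ˢ (univ : Finset (Fin (32 * m)))).filter
        (fun p => s p.1 (h p.1 p.2) = b)).card : ℝ) ≤ 64 * m * (1 + ((Z y).card : ℝ) / d)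

end Pool.Agent.Work.MP_db9399_owc
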